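import Mathlib

set_option autoImplicit false
set_option linter.unusedSimpArgs false

namespace Pool.Agent.Results.MP_a92470_an.Hereditary

open Matrix
open scoped ComplexOrder ComplexConjugate Kronecker

variable {X : Type}

/-- Positive semidefinite kernels. -/
def IsKernel (k : X → X → ℂ) : Prop :=
  ∀ (N : ℕ) (x : Fin N → X), (Matrix.of fun i j => k (x i) (x j)).PosSemidef

/-- The block matrix with `(i, j)` block `(1 - W i * (W j)ᴴ) s (x i) (x j)`. -/
def blockMat {n : ℕ} {ι : Type} (s : X → X → ℂ) (x : ι → X)
    (W : ι → Matrix (Fin n) (Fin n) ℂ) : Matrix (ι × Fin n) (ι × Fin n) ℂ :=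
  Matrix.of fun p q => (1 - W p.1 * (W q.1)ᴴ) p.2 q.2 * s (x p.1) (x q.1)

/-- `Φ` is a multiplier of `H(s) ⊗ ℂ ^ n` of norm at most one: all block matrices
`[(1 - Φ (x i) * (Φ (x j))ᴴ) s (x i) (x j)]` are positive semidefinite. -/
def Contractive {n : ℕ} (s : X → X → ℂ) (Φ : X → Matrix (Fin n) (Fin n) ℂ) : Prop :=
  ∀ (N : ℕ) (x : Fin N → X), (blockMat s x fun i => Φ (x i)).PosSemidef

/-- The complete Pick property. -/
def CompletePick (s : X → X → ℂ) : Prop :=
  ∀ n : ℕ, 1 ≤ n → ∀ (N : ℕ) (x : Fin N → X), Function.Injective x →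
    ∀ W : Fin N → Matrix (Fin n) (Fin n) ℂ, (blockMat s x W).PosSemidef →
      ∃ Φ : X → Matrix (Fin n) (Fin n) ℂ, Contractive s Φ ∧ ∀ i, Φ (x i) = W i

/-- `s` is a minimum certificate for `k` over `X`. -/
def MinCert (k s : X → X → ℂ) : Prop :=
  IsKernel s ∧ CompletePick s ∧
  (∃ h : X → X → ℂ, IsKernel h ∧ ∀ x y, k x y = (1 - h x y) * s x y) ∧
  ∀ s' h' : X → X → ℂ, IsKernel s' → CompletePick s' → IsKernel h' →
    (∀ x y, k x y = (1 - h' x y) * s' x y) →
      ∃ g : X → X → ℂ, IsKernel g ∧ ∀ x y, s' x y = g x y * s x y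

theorem IsKernel.finite {k : X → X → ℂ} (hk : IsKernel k) {ι : Type} [Fintype ι] (x : ι → X) :
    (Matrix.of fun i j => k (x i) (x j)).PosSemidef := by
  have h := hk (Fintype.card ι) (x ∘ (Fintype.equivFin ι).symm)
  have h2 := h.submatrix (Fintype.equivFin ι)
  convert h2 using 1
  ext i j
  simp

theorem Contractive.finite {n : ℕ} {s : X → X → ℂ} {Φ : X → Matrix (Fin n) (Fin n) ℂ}
    (hs : Contractive s Φ) {ι : Type} [Fintype ι] (x : ι → X) :
    (blockMat s x fun i => Φ (x i)).PosSemidef := by
  have h := hs (Fintype.card ι) (x ∘ (Fintype.equivFin ι).symm)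
  have h2 := h.submatrix (Prod.map (Fintype.equivFin ι) (id : Fin n → Fin n))
  convert h2 using 1
  ext ⟨i, a⟩ ⟨j, b⟩
  simp [blockMat]

theorem CompletePick.finite {n : ℕ} {s : X → X → ℂ} (hs : CompletePick s) (hn : 1 ≤ n) {ι : Type}
    [Fintype ι] (x : ι → X) (hx : Function.Injective x) (W : ι → Matrix (Fin n) (Fin n) ℂ)
    (hW : (blockMat s x W).PosSemidef) :
    ∃ Φ : X → Matrix (Fin n) (Fin n) ℂ, Contractive s Φ ∧ ∀ i, Φ (x i) = W i := by
  have e := Fintype.equivFin ι
  have h2 := hW.submatrix (Prod.map e.symm (id : Fin n → Fin n))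
  obtain ⟨Φ, h3, h4⟩ := hs n hn (Fintype.card ι) (x ∘ e.symm)
    (hx.comp e.symm.injective) (W ∘ e.symm) h2
  refine ⟨Φ, h3, fun i => ?_⟩
  have := h4 (e i)
  simpa using this

theorem kernel_diag {k : X → X → ℂ} (hk : IsKernel k) (x : X) : 0 ≤ k x x := by
  have h := (hk 1 (fun _ => x)).diag_nonneg (i := 0)
  simpa using h

theorem kernel_symm {k : X → X → ℂ} (hk : IsKernel k) (x y : X) : k y x = conj (k x y) := by
  have h := (hk 2 ![x, y]).1.apply 0 1
  simp at h
  have h2 := congrArg conj h
  simp at h2
  exact h2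

/-- zero on the diagonal forces zero rows. -/
theorem kernel_zero {k : X → X → ℂ} (hk : IsKernel k) (x y : X) (h0 : k x x = 0) :
    k x y = 0 := by
  have h := hk 2 ![x, y]
  have h1 := (h.dotProduct_mulVec_zero_iff (Pi.single 0 1)).mp (by
    simp [dotProduct, mulVec, Fin.sum_univ_two, h0])
  have h2 := congrFun h1 1
  simp [mulVec, dotProduct, Fin.sum_univ_two] at h2
  have h3 := kernel_symm hk x y
  rw [h2] at h3
  have h4 := congrArg conj h3
  simpa using h4.symm

theorem kernel_zero' {k : X → X → ℂ} (hk : IsKernel k) (x y : X) (h0 : k y y = 0) :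
    k x y = 0 := by
  have h1 := kernel_symm hk y x
  rw [h1, kernel_zero hk y x h0, map_zero]

/-- If `h` and `1 - h` are kernels then `h` is constant on pairs. -/
theorem const_of {h : X → X → ℂ} (hh : IsKernel h) (x y : X)
    (hg : (!![1 - h x x, 1 - h x y; 1 - h y x, 1 - h y y]).PosSemidef) :
    h x y = h x x ∧ h x y = h y y := by
  have hH : (!![h x x, h x y; h y x, h y y]).PosSemidef := by
    have := hh 2 ![x, y]
    convert this using 1
    ext i j
    fin_cases i <;> fin_cases j <;> simp
  have h1 := hH.dotProduct_mulVec_nonneg ![1, -1]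
  have h2 := hg.dotProduct_mulVec_nonneg ![1, -1]
  have e1 : star (![1, -1] : Fin 2 → ℂ) ⬝ᵥ (!![h x x, h x y; h y x, h y y] *ᵥ ![1, -1])
      = h x x - h x y - h y x + h y y := by
    simp [dotProduct, mulVec, Fin.sum_univ_two]; ring
  have e2 : star (![1, -1] : Fin 2 → ℂ) ⬝ᵥ
      (!![1 - h x x, 1 - h x y; 1 - h y x, 1 - h y y] *ᵥ ![1, -1])
      = -(h x x - h x y - h y x + h y y) := by
    simp [dotProduct, mulVec, Fin.sum_univ_two]; ring
  rw [e2] at h2
  have h3 : h x x - h x y - h y x + h y y = 0 := by
    rw [e1] at h1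
    exact le_antisymm (neg_nonneg.mp h2) h1
  have h4 := (hH.dotProduct_mulVec_zero_iff ![1, -1]).mp (by rw [e1, h3])
  have h5 := congrFun h4 0
  have h6 := congrFun h4 1
  simp [mulVec, dotProduct, Fin.sum_univ_two] at h5 h6
  have h7 := kernel_symm hh x y
  have h8 := kernel_symm hh y y
  constructor
  · linear_combination -h5
  · have h9 : h y x = h y y := by linear_combination h6
    rw [h9] at h7
    have h10 := congrArg conj h7
    rw [Complex.conj_conj] at h10
    rw [← h10, ← h8]

/-- modification of a contractive multiplier on the zero set of the kernel. -/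
theorem contractive_congr {n : ℕ} {s : X → X → ℂ} {Φ Ψ : X → Matrix (Fin n) (Fin n) ℂ}
    (hΦ : Contractive s Φ)
    (h : ∀ x y, s x y ≠ 0 → Φ x = Ψ x ∧ Φ y = Ψ y) : Contractive s Ψ := by
  intro N x
  have h1 := hΦ N x
  convert h1 using 1
  ext p q
  simp only [blockMat, Matrix.of_apply]
  by_cases hs : s (x p.1) (x q.1) = 0
  · rw [hs, mul_zero, mul_zero]
  · rw [(h _ _ hs).1, (h _ _ hs).2]

theorem contractive_const {n : ℕ} {s : X → X → ℂ} (hs : IsKernel s)
    (W : Matrix (Fin n) (Fin n) ℂ) (hW : (1 - W * Wᴴ).PosSemidef) :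
    Contractive s (fun _ => W) := by
  intro N x
  have h := (hs N x).kronecker hW
  have e : (blockMat s x fun _ => W)
      = kroneckerMap (fun a b => a * b) (Matrix.of fun i j => s (x i) (x j)) (1 - W * Wᴴ) := by
    ext ⟨i, a⟩ ⟨j, b⟩
    simp [blockMat, Matrix.kroneckerMap_apply, mul_comm]
  change (blockMat s x fun _ => W).PosSemidef
  rw [e]
  exact h

/-- Every kernel on a set with at most two points has the complete Pick property. -/
theorem completePick_two {κ : X → X → ℂ} (hκ : IsKernel κ)
    (h2 : ∀ x y z : X, x ≠ y → z = x ∨ z = y) : CompletePick κ := by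
  classical
  intro n hn N p hp W hW
  by_cases hsurj : Function.Surjective p
  · choose σ hσ using hsurj
    refine ⟨fun z => W (σ z), ?_, fun i => ?_⟩
    · intro M q
      have h3 := hW.submatrix (Prod.map (fun j => σ (q j)) (id : Fin n → Fin n))
      convert h3 using 1
      ext ⟨i, a⟩ ⟨j, b⟩
      simp [blockMat, hσ]
    · change W (σ (p i)) = W i
      rw [hp (hσ (p i))]
  · have hle : ∀ i j : Fin N, i = j := by
      intro i j
      by_contra hne
      apply hsurj
      intro z
      rcases h2 (p i) (p j) z (fun h => hne (hp h)) with h | h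
      · exact ⟨i, h.symm⟩
      · exact ⟨j, h.symm⟩
    have hzero : Contractive κ (fun _ => (0 : Matrix (Fin n) (Fin n) ℂ)) :=
      contractive_const hκ 0 (by simpa using Matrix.PosSemidef.one)
    rcases Nat.eq_zero_or_pos N with rfl | hN
    · exact ⟨fun _ => 0, hzero, fun i => i.elim0⟩
    · let i0 : Fin N := ⟨0, hN⟩
      by_cases h0 : κ (p i0) (p i0) = 0
      · refine ⟨fun z => if z = p i0 then W i0 else 0, ?_, ?_⟩
        · apply contractive_congr hzero
          intro x y hxy
          have hx : x ≠ p i0 := fun h => hxy (by rw [h]; exact kernel_zero hκ _ _ h0)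
          have hy : y ≠ p i0 := fun h => hxy (by rw [h]; exact kernel_zero' hκ _ _ h0)
          simp [hx, hy]
        · intro i
          change (if p i = p i0 then W i0 else 0) = W i
          rw [hle i i0, if_pos rfl]
      · refine ⟨fun _ => W i0, ?_, fun i => by rw [hle i i0]⟩
        apply contractive_const hκ
        have h3 := hW.submatrix (fun a : Fin n => (i0, a))
        have hpos : 0 < κ (p i0) (p i0) := lt_of_le_of_ne (kernel_diag hκ _) (Ne.symm h0)
        have h4 := h3.smul (inv_nonneg.mpr hpos.le)
        convert h4 using 1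
        ext a b
        simp only [blockMat, Matrix.smul_apply, Matrix.submatrix_apply, Matrix.of_apply,
          smul_eq_mul]
        field_simp

/-- dyad multiples of complete Pick kernels have the complete Pick property. -/
theorem completePick_dyad {k s : X → X → ℂ} (hs : CompletePick s) (δ : X → ℂ)
    (hk : ∀ x y, k x y = δ x * conj (δ y) * s x y) : CompletePick k := by
  classical
  intro n hn N x hx W hW
  let I : Type := {i : Fin N // δ (x i) ≠ 0}
  have hI : (blockMat s (fun i : I => x i.1) (fun i : I => W i.1)).PosSemidef := by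
    have h1 := hW.submatrix (Prod.map (fun i : I => i.1) (id : Fin n → Fin n))
    have h2 := h1.mul_mul_conjTranspose_same
      (diagonal fun p : I × Fin n => (δ (x p.1.1))⁻¹)
    convert h2 using 1
    ext p q
    rw [diagonal_conjTranspose, mul_diagonal, diagonal_mul]
    simp only [blockMat, Matrix.of_apply, Matrix.submatrix_apply, Prod.map, id, Pi.star_apply,
      star_inv₀, hk]
    have hp := p.1.2
    have hq : conj (δ (x q.1.1)) ≠ 0 := by
      rw [Ne, map_eq_zero]; exact q.1.2
    have e : star (δ (x q.1.1)) = conj (δ (x q.1.1)) := rfl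
    rw [e]
    field_simp
  obtain ⟨Φ, hΦ, hΦW⟩ := hs.finite hn (fun i : I => x i.1)
    (hx.comp Subtype.val_injective) (fun i : I => W i.1) hI
  -- contractive for `k`
  have hΦk : Contractive k Φ := by
    intro M y
    have h1 := hΦ M y
    have h2 := h1.mul_mul_conjTranspose_same (diagonal fun p : Fin M × Fin n => δ (y p.1))
    convert h2 using 1
    ext p q
    rw [diagonal_conjTranspose, mul_diagonal, diagonal_mul]
    simp only [blockMat, Matrix.of_apply, Pi.star_apply, hk]
    have e : star (δ (y q.1)) = conj (δ (y q.1)) := rfl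
    rw [e]
    ring
  -- modify on the zero set
  refine ⟨fun z => if h : ∃ i, x i = z then W h.choose else Φ z, ?_, ?_⟩
  · apply contractive_congr hΦk
    intro a b hab
    have key : ∀ z, δ z ≠ 0 → Φ z = if h : ∃ i, x i = z then W h.choose else Φ z := by
      intro z hz
      by_cases h : ∃ i, x i = z
      · rw [dif_pos h]
        have h3 := h.choose_spec
        have h4 : δ (x h.choose) ≠ 0 := by rw [h3]; exact hz
        have h5 := hΦW ⟨h.choose, h4⟩
        simp only at h5
        rw [← h5, h3]
      · rw [dif_neg h]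
    rw [hk] at hab
    have ha : δ a ≠ 0 := fun h => hab (by rw [h]; simp)
    have hb : δ b ≠ 0 := fun h => hab (by rw [h]; simp)
    exact ⟨key a ha, key b hb⟩
  · intro i
    have h : ∃ j, x j = x i := ⟨i, rfl⟩
    simp only
    rw [dif_pos h]
    congr 1
    exact hx h.choose_spec

/-- If `k = (1 - h) s` with `s` a complete Pick kernel whose restriction to every nonempty subset is
a minimum certificate for the restriction of `k`, then `k` is a complete Pick kernel, and equals
`s` up to a dyad. -/
theorem result (X : Type) (k s h : X → X → ℂ) (hk : IsKernel k) (hs : IsKernel s)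
    (hCP : CompletePick s) (hh : IsKernel h) (hks : ∀ x y, k x y = (1 - h x y) * s x y)
    (hmin : ∀ X' : Set X, X'.Nonempty →
      MinCert (fun x y : X' => k x y) (fun x y : X' => s x y)) :
    CompletePick k ∧ ∃ δ : X → ℂ, ∀ x y, k x y = δ x * conj (δ y) * s x y := by
  classical
  have hres : ∀ (X' : Set X) (κ : X → X → ℂ), IsKernel κ → IsKernel (fun x y : X' => κ x y) :=
    fun X' κ hκ N x => hκ N (fun i => (x i : X))
  -- `h` is constant on pairs where `s` does not vanish
  have hpair : ∀ x y, s x y ≠ 0 → h x y = h x x ∧ h x y = h y y := by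
    intro x y hxy
    have hsxx : s x x ≠ 0 := fun h0 => hxy (kernel_zero hs x y h0)
    have hsyy : s y y ≠ 0 := fun h0 => hxy (kernel_zero' hs x y h0)
    have hsyx : s y x ≠ 0 := by
      rw [kernel_symm hs x y]
      exact fun h0 => hxy (by simpa using h0)
    let X' : Set X := {x, y}
    let x' : X' := ⟨x, by simp [X']⟩
    let y' : X' := ⟨y, by simp [X']⟩
    obtain ⟨_, _, _, hm⟩ := hmin X' ⟨x, by simp [X']⟩
    have hcp2 : CompletePick (fun a b : X' => k a b) := by
      apply completePick_two (hres X' k hk)
      intro a b c hab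
      have hmem : ∀ t : X', t = x' ∨ t = y' := by
        rintro ⟨t, ht⟩
        rcases ht with h | h
        · left; exact Subtype.ext h
        · right; exact Subtype.ext h
      rcases hmem a with ha | ha <;> rcases hmem b with hb | hb <;> rcases hmem c with hc | hc
      all_goals first
        | (exfalso; apply hab; rw [ha, hb]; done)
        | (left; rw [ha, hc]; done)
        | (right; rw [hb, hc]; done)
    have hzero : IsKernel (fun _ _ : X' => (0 : ℂ)) := by
      intro N z
      have : (Matrix.of fun _ _ : Fin N => (0 : ℂ)) = 0 := rfl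
      rw [this]
      exact Matrix.PosSemidef.zero
    obtain ⟨g, hg, hgs⟩ := hm (fun a b : X' => k a b) (fun _ _ => 0) (hres X' k hk) hcp2 hzero
      (by intro a b; ring)
    have hgeq : ∀ a b : X', s a b ≠ 0 → g a b = 1 - h a b := by
      intro a b hab
      have h1 := hgs a b
      simp only at h1
      rw [hks] at h1
      exact (mul_right_cancel₀ hab h1).symm
    have hG : (!![1 - h x x, 1 - h x y; 1 - h y x, 1 - h y y]).PosSemidef := by
      have h1 := hg 2 ![x', y']
      convert h1 using 1
      ext i j
      fin_cases i <;> fin_cases j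
      · simpa using (hgeq x' x' hsxx).symm
      · simpa using (hgeq x' y' hxy).symm
      · simpa using (hgeq y' x' hsyx).symm
      · simpa using (hgeq y' y' hsyy).symm
    exact const_of hh x y hG
  let δ : X → ℂ := fun x => ((Real.sqrt (1 - (h x x).re) : ℝ) : ℂ)
  have hδ : ∀ x y, k x y = δ x * conj (δ y) * s x y := by
    intro x y
    by_cases hxy : s x y = 0
    · rw [hks, hxy]; simp
    · have hsxx : s x x ≠ 0 := fun h0 => hxy (kernel_zero hs x y h0)
      obtain ⟨h1, h2⟩ := hpair x y hxy
      have h3 : h y y = h x x := by rw [← h2, h1]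
      have hreal : h x x = (((h x x).re : ℝ) : ℂ) := by
        have := kernel_diag hh x
        rw [Complex.le_def] at this
        apply Complex.ext
        · simp
        · simpa using this.2.symm
      have hle : 0 ≤ 1 - (h x x).re := by
        have h4 := kernel_diag hk x
        have h5 : 0 < s x x := lt_of_le_of_ne (kernel_diag hs x) (Ne.symm hsxx)
        rw [hks] at h4
        have h6 : (0 : ℂ) ≤ 1 - h x x := by
          by_contra hcon
          rw [Complex.le_def] at h4
          rw [Complex.lt_def] at h5
          apply hcon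
          rw [Complex.le_def]
          have h7 : (s x x).im = 0 := h5.2.symm
          have h8 : 0 < (s x x).re := h5.1
          have h9 := h4.1
          have h10 := h4.2
          rw [Complex.mul_re, h7, mul_zero, sub_zero] at h9
          rw [Complex.mul_im, h7, mul_zero, zero_add] at h10
          refine ⟨nonneg_of_mul_nonneg_left h9 h8, ?_⟩
          rcases mul_eq_zero.mp h10.symm with h | h
          · exact h.symm
          · exact absurd h h8.ne'
        rw [Complex.le_def] at h6
        simpa using h6.1
      simp only [δ, Complex.conj_ofReal]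
      rw [h3, ← Complex.ofReal_mul, Real.mul_self_sqrt hle, hks, h1]
      congr 1
      rw [Complex.ofReal_sub, Complex.ofReal_one, ← hreal]
  exact ⟨completePick_dyad hCP δ hδ, δ, hδ⟩

end Pool.Agent.Results.MP_a92470_an.Hereditary
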